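import Pool.Agent.Lib.HYP.Def

/-!
Module H.Phi: existence of the leading form: a monic irreducible polynomial of degree `2 g + 1`
over the finite field `k` without term of degree `2 g`.
-/

set_option autoImplicit false

open Polynomial

namespace Pool.Agent.HYP

variable {k : Type} [Field k]

/-- over a finite field there are monic irreducible polynomials of every degree `n > 0` -/
theorem exists_monic_irreducible [Finite k] (n : ℕ) (hn : n ≠ 0) :
    ∃ φ : k[X], φ.Monic ∧ Irreducible φ ∧ φ.natDegree = n := by
  classical
  obtain ⟨p, hp⟩ := CharP.exists k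
  have hpp : Fact p.Prime := ⟨CharP.char_is_prime k p⟩
  have : NeZero n := ⟨hn⟩
  obtain ⟨α, hα⟩ := Field.exists_primitive_element k (FiniteField.Extension k p n)
  have hint : IsIntegral k α := Algebra.IsIntegral.isIntegral α
  refine ⟨minpoly k α, minpoly.monic hint, minpoly.irreducible hint, ?_⟩
  rw [← IntermediateField.adjoin.finrank hint, hα, IntermediateField.finrank_top',
    FiniteField.finrank_extension]

/-- the leading form exists if `2 g + 1 ≠ 0` in the finite field `k` -/
theorem exists_leadForm [Finite k] (g : ℕ) (hg : ((2 * g + 1 : ℕ) : k) ≠ 0) :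
    ∃ φ : k[X], LeadForm g φ := by
  obtain ⟨φ, hm, hirr, hdeg⟩ := exists_monic_irreducible (k := k) (2 * g + 1) (by omega)
  set a : k := -(φ.coeff (2 * g)) / ((2 * g + 1 : ℕ) : k) with ha
  have hdegX : (X + C a : k[X]).natDegree = 1 := natDegree_X_add_C a
  have hmonX : (X + C a : k[X]).Monic := monic_X_add_C a
  refine ⟨φ.comp (X + C a), ?_, ?_, ?_, ?_⟩
  · exact hm.comp hmonX (by rw [hdegX]; norm_num)
  · rw [natDegree_comp, hdegX, hdeg, mul_one]
  rotate_left
  · have h := (MulEquiv.irreducible_iff (Polynomial.algEquivAevalXAddC a).toMulEquiv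
      (x := φ)).2 hirr
    have h2 : (Polynomial.algEquivAevalXAddC a).toMulEquiv φ = φ.comp (X + C a) := by
      change (Polynomial.algEquivAevalXAddC a) φ = _
      rw [Polynomial.algEquivAevalXAddC_apply]
      rfl
    rwa [h2] at h
  · have h1 : φ.comp (X + C a) = taylor a φ := rfl
    have h2 : (taylor a φ).coeff (2 * g) = φ.coeff (2 * g) + ((2 * g + 1 : ℕ) : k) * a := by
      rw [taylor_coeff]
      have h3 : (hasseDeriv (2 * g) φ).natDegree ≤ 1 := by
        refine (natDegree_hasseDeriv_le φ (2 * g)).trans ?_
        omega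
      rw [eq_X_add_C_of_natDegree_le_one h3]
      simp only [eval_add, eval_mul, eval_C, eval_X, hasseDeriv_coeff]
      have h4 : φ.coeff (1 + 2 * g) = 1 := by
        rw [show 1 + 2 * g = φ.natDegree by omega]
        exact hm
      rw [h4]
      have h5 : (1 + 2 * g).choose (2 * g) = 2 * g + 1 := by
        rw [show 1 + 2 * g = 2 * g + 1 by omega]
        exact Nat.choose_succ_self_right (2 * g)
      rw [h5]
      simp
      ring
    rw [h1, h2, ha]
    field_simp
    ring

end Pool.Agent.HYP
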