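import Pool.Agent.Lib.HYP.H.Irr
import Pool.Agent.Lib.BSDP.I.Fam

/-!
Module H.Height: the twists of the polynomials of the family are minimal models of bounded height,
the twist determines the polynomial, the number of minimal models of height at most `M`.
-/

set_option autoImplicit false

open Polynomial

namespace Pool.Agent.HYP

open Pool.Agent.BSDP

variable {k : Type} [Field k]

/-- regularity at `(π, x)` -/
theorem not_dvd_of_regP {π : k[X]} {f : k[X][X]} (h : RegP π f) :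
    ¬ (π ^ 2 ∣ f.coeff 0 ∧ π ∣ f.coeff 1) := by
  rintro ⟨⟨a, ha⟩, ⟨b, hb⟩⟩
  refine h X (C a) (C b) (divX (divX f)) monic_X natDegree_X.ge ?_
  have h1 := divX_mul_X_add f
  have h2 := divX_mul_X_add (divX f)
  have h3 : (divX f).coeff 0 = f.coeff 1 := by rw [coeff_divX]
  rw [h3, hb] at h2
  rw [ha, ← h2] at h1
  refine h1.symm.trans ?_
  simp only [C_mul]
  ring

/-- `π ^ (2 i) ∣ a D ^ i`, `D` squarefree, implies `π ^ i ∣ a` -/
theorem pow_dvd_of_pow_dvd_mul {a D π : k[X]} (hD : Squarefree D) (hπ : Irreducible π) {i : ℕ}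
    (h : π ^ (2 * i) ∣ a * D ^ i) : π ^ i ∣ a := by
  by_cases hd : π ∣ D
  · obtain ⟨D', rfl⟩ := hd
    have hπ' : ¬ π ∣ D' := by
      rintro ⟨D'', rfl⟩
      exact hπ.not_isUnit (hD π ⟨D'', by ring⟩)
    have h1 : π ^ i * π ^ i ∣ π ^ i * (a * D' ^ i) := by
      refine (dvd_of_eq ?_).trans (h.trans (dvd_of_eq ?_))
      · rw [← pow_add]; congr 1; ring
      · rw [mul_pow]; ring
    have h2 : π ^ i ∣ a * D' ^ i := (mul_dvd_mul_iff_left (pow_ne_zero i hπ.ne_zero)).1 h1
    have hc : IsCoprime (π ^ i) (D' ^ i) := ((Irreducible.coprime_iff_not_dvd hπ).2 hπ').pow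
    exact hc.dvd_of_dvd_mul_right h2
  · have hc : IsCoprime (π ^ i) (D ^ i) := ((Irreducible.coprime_iff_not_dvd hπ).2 hd).pow
    refine hc.dvd_of_dvd_mul_right ((pow_dvd_pow π ?_).trans h)
    omega

theorem coeff_twist {g : ℕ} {f : k[X][X]} (hd : f.natDegree = 2 * g + 1) (D : k[X]) (j : ℕ) :
    (f.scaleRoots D).coeff j = f.coeff j * D ^ (2 * g + 1 - j) := by
  rw [coeff_scaleRoots, hd]

/-- the twists of the polynomials of the family are minimal models of bounded height -/
theorem inH_twist {g m h : ℕ} (hg : 1 ≤ g) {φ : k[X]} (hφ : LeadForm g φ)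
    (hn : ((2 * g + 1 : ℕ) : k) ≠ 0) {f : k[X][X]} (hf : Fam g m φ f) {D : k[X]}
    (hD : Squarefree D) (hdeg : D.natDegree ≤ 2 * h) : InH g (m + h) (f.scaleRoots D) := by
  have hD0 : D ≠ 0 := hD.ne_zero
  refine ⟨?_, ?_, ?_, ?_, ?_, ?_⟩
  · exact (monic_scaleRoots_iff D).2 hf.monic
  · rw [natDegree_scaleRoots, hf.deg]
  · rw [coeff_twist hf.deg, hf.tr, zero_mul]
  · intro j hj
    rw [coeff_twist hf.deg]
    refine natDegree_mul_le.trans ?_
    rw [natDegree_pow]
    have h1 := hf.degc j hj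
    have h2 : (2 * g + 1 - j) * D.natDegree ≤ (2 * g + 1 - j) * (2 * h) :=
      Nat.mul_le_mul_left _ hdeg
    have h3 : 2 * (m + h) * (2 * g + 1 - j) =
        2 * m * (2 * g + 1 - j) + (2 * g + 1 - j) * (2 * h) := by ring
    rw [h3]
    exact Nat.add_le_add h1 h2
  · have h1 : fK (f.scaleRoots D) = (fK f).scaleRoots (algebraMap k[X] (RatFunc k) D) := by
      refine map_scaleRoots f D _ ?_
      rw [hf.monic.leadingCoeff, map_one]
      exact one_ne_zero
    rw [h1]
    refine separable_scaleRoots hf.natDegree_map (natCast_ratFunc_ne_zero hn)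
      (hf.separable hφ hn) ?_
    exact (map_ne_zero_iff _ (IsFractionRing.injective k[X] (RatFunc k))).2 hD0
  · intro π hπ hall
    have key : ∀ j < 2 * g + 1, π ^ (2 * g + 1 - j) ∣ f.coeff j := by
      intro j hj
      have h1 := hall j hj
      rw [coeff_twist hf.deg] at h1
      exact pow_dvd_of_pow_dvd_mul hD hπ h1
    refine not_dvd_of_regP (hf.reg π hπ) ⟨?_, ?_⟩
    · refine (pow_dvd_pow π ?_).trans (key 0 (by omega))
      omega
    · refine (dvd_pow_self π ?_).trans (key 1 (by omega))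
      omega

theorem mem_iff_dvd_twist {g m : ℕ} (hg : 1 ≤ g) {φ : k[X]} {V W : Finset k[X]}
    (hV : ∀ π ∈ V, π.Monic ∧ Irreducible π) (hW : W ⊆ V) {f : k[X][X]} (hf : Fam g m φ f)
    {π : k[X]} (hπ : π ∈ V) :
    π ∈ W ↔ π ^ 2 ∣ (f.scaleRoots (∏ σ ∈ W, σ)).coeff 0 ∧
      π ∣ (f.scaleRoots (∏ σ ∈ W, σ)).coeff 1 := by
  rw [coeff_twist hf.deg, coeff_twist hf.deg]
  constructor
  · intro h
    have hd : π ∣ ∏ σ ∈ W, σ := Finset.dvd_prod_of_mem _ h
    refine ⟨?_, ?_⟩
    · exact ((pow_dvd_pow_of_dvd hd 2).trans (pow_dvd_pow _ (by omega))).mul_left _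
    · exact (hd.trans (dvd_pow_self _ (by omega))).mul_left _
  · rintro ⟨h1, h2⟩
    by_contra hn
    have hirr := (hV π hπ).2
    have hcop : IsCoprime π (∏ σ ∈ W, σ) := by
      refine IsCoprime.prod_right fun σ hσ => ?_
      refine (Irreducible.coprime_iff_not_dvd hirr).2 fun hdvd => hn ?_
      have h3 := hV σ (hW hσ)
      have : π = σ :=
        eq_of_monic_of_associated (hV π hπ).1 h3.1 (hirr.associated_of_dvd h3.2 hdvd)
      rwa [this]
    refine not_dvd_of_regP (hf.reg π hirr) ⟨?_, ?_⟩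
    · exact hcop.pow.dvd_of_dvd_mul_right h1
    · exact hcop.pow_right.dvd_of_dvd_mul_right h2

/-- the twist determines the polynomial -/
theorem twist_inj {g m : ℕ} (hg : 1 ≤ g) {φ : k[X]} {V W W' : Finset k[X]}
    (hV : ∀ π ∈ V, π.Monic ∧ Irreducible π) (hW : W ⊆ V) (hW' : W' ⊆ V) {f f' : k[X][X]}
    (hf : Fam g m φ f) (hf' : Fam g m φ f')
    (h : f.scaleRoots (∏ σ ∈ W, σ) = f'.scaleRoots (∏ σ ∈ W', σ)) : f = f' := by
  have hWW : W = W' := by
    ext π
    constructor
    · intro hm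
      rw [mem_iff_dvd_twist hg hV hW' hf' (hW hm), ← h, ← mem_iff_dvd_twist hg hV hW hf (hW hm)]
      exact hm
    · intro hm
      rw [mem_iff_dvd_twist hg hV hW hf (hW' hm), h, ← mem_iff_dvd_twist hg hV hW' hf' (hW' hm)]
      exact hm
  subst hWW
  have hD0 : (∏ π ∈ W, π) ≠ 0 := (monic_prod hV hW).ne_zero
  ext1 j
  have h1 : (f.scaleRoots (∏ σ ∈ W, σ)).coeff j = (f'.scaleRoots (∏ σ ∈ W, σ)).coeff j := by
    rw [h]
  rw [coeff_twist hf.deg, coeff_twist hf'.deg] at h1
  exact mul_right_cancel₀ (pow_ne_zero _ hD0) h1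

/-! ### Counting the minimal models -/

/-- the coefficients of degree less than `2 g` of a minimal model -/
noncomputable def coeffs {g M : ℕ} (f : {f : k[X][X] // InH g M f}) :
    (i : Fin (2 * g)) → {a : k[X] // a.natDegree ≤ 2 * M * (2 * g + 1 - i)} :=
  fun i => ⟨f.1.coeff i, f.2.degc i (by omega)⟩

theorem coeffs_injective {g M : ℕ} :
    Function.Injective (coeffs (k := k) (g := g) (M := M)) := by
  rintro ⟨f, hf⟩ ⟨f', hf'⟩ h
  rw [Subtype.mk.injEq]
  ext1 j
  rcases lt_trichotomy j (2 * g) with hj | hj | hj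
  · have h1 := congrFun h ⟨j, hj⟩
    simpa [coeffs] using congrArg Subtype.val h1
  · rw [hj, hf.tr, hf'.tr]
  · rcases Nat.eq_or_lt_of_le (Nat.succ_le_of_lt hj) with h1 | h1
    · have e1 : f.coeff j = 1 := by
        rw [← h1, Nat.succ_eq_add_one, ← hf.deg]
        exact hf.monic
      have e2 : f'.coeff j = 1 := by
        rw [← h1, Nat.succ_eq_add_one, ← hf'.deg]
        exact hf'.monic
      rw [e1, e2]
    · rw [coeff_eq_zero_of_natDegree_lt (p := f) (by rw [hf.deg]; exact h1),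
        coeff_eq_zero_of_natDegree_lt (p := f') (by rw [hf'.deg]; exact h1)]

instance finite_natDegree_sub [Finite k] (n : ℕ) : Finite {f : k[X] // f.natDegree ≤ n} :=
  (finite_natDegree_le' (k := k) n).to_subtype

instance finite_inH [Finite k] (g M : ℕ) : Finite {f : k[X][X] // InH g M f} :=
  Finite.of_injective _ coeffs_injective

theorem sum_exponents (g M : ℕ) :
    ∑ i : Fin (2 * g), (2 * M * (2 * g + 1 - (i : ℕ)) + 1) =
      M * ((2 * g + 1) ^ 2 + (2 * g + 1) - 2) + 2 * g := by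
  rw [Fin.sum_univ_eq_sum_range (fun i => 2 * M * (2 * g + 1 - i) + 1) (2 * g),
    Finset.sum_add_distrib, Finset.sum_const, Finset.card_range, smul_eq_mul, mul_one]
  congr 1
  rw [← Finset.sum_range_reflect]
  have h1 : ∀ j ∈ Finset.range (2 * g), 2 * M * (2 * g + 1 - (2 * g - 1 - j)) =
      2 * M * (j + 2) := by
    intro j hj
    rw [Finset.mem_range] at hj
    congr 1
    omega
  rw [Finset.sum_congr rfl h1, ← Finset.mul_sum]
  have h2 : ∀ n : ℕ, 2 * ∑ j ∈ Finset.range n, (j + 2) = n * (n + 3) := by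
    intro n
    induction n with
    | zero => simp
    | succ n ih => rw [Finset.sum_range_succ, mul_add, ih]; ring
  have h3 : (2 * g + 1) ^ 2 + (2 * g + 1) - 2 = 2 * g * (2 * g + 3) := by
    have : (2 * g + 1) ^ 2 + (2 * g + 1) = 2 * g * (2 * g + 3) + 2 := by ring
    omega
  rw [h3, ← h2 (2 * g)]
  ring

/-- the number of minimal models of height at most `M` -/
theorem card_inH_le [Finite k] (g M : ℕ) :
    Nat.card {f : k[X][X] // InH g M f} ≤
      Nat.card k ^ (M * ((2 * g + 1) ^ 2 + (2 * g + 1) - 2) + 2 * g) := by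
  refine (Nat.card_le_card_of_injective _ (coeffs_injective (k := k) (g := g) (M := M))).trans
    (le_of_eq ?_)
  rw [Nat.card_pi]
  simp only [card_natDegree_le]
  rw [Finset.prod_pow_eq_pow_sum, sum_exponents]

end Pool.Agent.HYP
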