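import Pool.Agent.Lib.HYP.G.Tw

/-!
Module H.IrrTw of MP_950c68_ag (genus g). `f (x / D) D ^ n` is irreducible if `f` is.
-/

set_option autoImplicit false

open Polynomial

namespace Pool.Agent.HYP

theorem irreducible_scale {F : Type} [Field F] {f f' : F[X]} {D : F} (hD : D ≠ 0)
    (h : f' = f.scaleRoots D) (hi : Irreducible f) : Irreducible f' := by
  have hf0 : f' ≠ 0 := by
    rw [h]
    exact scaleRoots_ne_zero hi.ne_zero D
  have : Fact (Irreducible f) := ⟨hi⟩
  have h1 : IsDomain (AdjoinRoot f') :=
    (dn_bijective hD h).injective.isDomain (dn D h).toRingHom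
  have h2 : (Ideal.span {f'} : Ideal F[X]).IsPrime := (Ideal.Quotient.isDomain_iff_prime _).1 h1
  exact ((Ideal.span_singleton_prime hf0).1 h2).irreducible

end Pool.Agent.HYP
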