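import Pool.Agent.Lib.HYP.F.Res
import Pool.Agent.Lib.HYP.L.Norm

/-!
Module H.Mum of MP_950c68_ag (genus g). Base change of Mumford pairs; if the `2`-Selmer group is trivial
every rational Mumford pair has square image.
-/

set_option autoImplicit false

open Polynomial

namespace Pool.Agent.HYP

open Pool.Agent.BSDP

theorem Mumford.map {F F' : Type} [Field F] [Field F'] (φ : F →+* F') {f U V : F[X]} {g : ℕ}
    (h : Mumford f g U V) : Mumford (f.map φ) g (U.map φ) (V.map φ) where
  monic := h.monic.map φ
  deg := by rw [h.monic.natDegree_map]; exact h.deg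
  cop := by
    have := h.cop.map (mapRingHom φ)
    exact this
  dvd := by
    have := _root_.map_dvd (mapRingHom φ) h.dvd
    simpa using this

theorem isUnit_mk_of_coprime {F : Type} [Field F] {f U : F[X]} (h : IsCoprime U f) :
    IsUnit (AdjoinRoot.mk f U) := by
  obtain ⟨a, b, hab⟩ := h
  refine IsUnit.of_mul_eq_one (AdjoinRoot.mk f a) ?_
  have h1 := congrArg (AdjoinRoot.mk f) hab
  rw [map_add, map_mul, map_mul, AdjoinRoot.mk_self, mul_zero, add_zero, map_one] at h1
  rw [mul_comm]
  exact h1

theorem mumford_isSquare {k : Type} [Field k] {g : ℕ} {f : k[X][X]} (hm : (fK f).Monic)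
    (h : SelTriv g f) {U V : (RatFunc k)[X]} (hM : Mumford (fK f) g U V) :
    IsSquare ((-1) ^ U.natDegree * AdjoinRoot.mk (fK f) U) := by
  have hu : IsUnit ((-1) ^ U.natDegree * AdjoinRoot.mk (fK f) U) :=
    ((isUnit_one.neg).pow _).mul (isUnit_mk_of_coprime hM.cop)
  have hN := norm_mumford hm hM.monic hM.dvd
  refine h _ ⟨resultant U V, ?_, hN⟩ ?_
  · intro h0
    rw [h0] at hN
    have h1 := (isUnit_iff_norm hm _).1 hu
    rw [hN] at h1
    exact absurd h1 (by simp)
  · intro w
    refine ⟨U.map w.toCompletion, V.map w.toCompletion, hM.map _, 1, isUnit_one, ?_⟩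
    rw [one_pow, mul_one, hM.monic.natDegree_map, map_mul, map_pow, map_neg, map_one, bc_mk]

end Pool.Agent.HYP
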