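import Pool.Agent.Lib.HYP.Def

/-!
Module H.Irr: the polynomials with the leading form `φ` (irreducible) are irreducible over `k[t]`
and over `k(t)`, and separable over `k(t)` if `2 g + 1 ≠ 0` in `k`; scaling of the roots preserves
separability.
-/

set_option autoImplicit false

open Polynomial

namespace Pool.Agent.HYP

variable {k : Type} [Field k]

/-- `f (x, t) ↦ f (t ^ (2 m) x, t)` as a polynomial in `t` over `k[x]` -/
noncomputable def swapHom (k : Type) [Field k] (m : ℕ) : k[X][X] →+* k[X][X] :=
  eval₂RingHom (mapRingHom C) (C X * X ^ (2 * m))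

theorem swapHom_monomial (m j : ℕ) (p : k[X]) :
    swapHom k m (monomial j p) = C (X ^ j) * (p.map C * X ^ (2 * m * j)) := by
  simp only [swapHom, coe_eval₂RingHom, eval₂_monomial, coe_mapRingHom, mul_pow, map_pow]
  rw [← pow_mul]
  ring

theorem coeff_swapHom (m : ℕ) (f : k[X][X]) (N r : ℕ) :
    ((swapHom k m f).coeff N).coeff r =
      if 2 * m * r ≤ N then (f.coeff r).coeff (N - 2 * m * r) else 0 := by
  induction f using Polynomial.induction_on' with
  | add p q hp hq =>
    rw [map_add, coeff_add, coeff_add, hp, hq, coeff_add, coeff_add]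
    split_ifs <;> simp
  | monomial j p =>
    rw [swapHom_monomial, coeff_C_mul, coeff_mul_X_pow']
    by_cases hj : j = r
    · subst hj
      rw [coeff_monomial, if_pos rfl]
      split_ifs with h1
      · rw [coeff_map, mul_comm, coeff_C_mul, coeff_X_pow, if_pos rfl, mul_one]
      · rw [mul_zero, coeff_zero]
    · rw [coeff_monomial, if_neg hj, coeff_zero, ite_self]
      by_cases h1 : 2 * m * j ≤ N
      · rw [if_pos h1, coeff_map, mul_comm, coeff_C_mul, coeff_X_pow, if_neg (Ne.symm hj),
          mul_zero]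
      · rw [if_neg h1, mul_zero, coeff_zero]

section

variable {g : ℕ} {φ : k[X]} {m : ℕ} {f : k[X][X]}

theorem swap_coeff (hφ : φ.natDegree ≤ 2 * g + 1) (hd : f.natDegree = 2 * g + 1)
    (hlead : ∀ j ≤ 2 * g + 1, (f.coeff j).coeff (2 * m * (2 * g + 1 - j)) = φ.coeff j) :
    (swapHom k m f).coeff (2 * m * (2 * g + 1)) = φ := by
  ext r
  rw [coeff_swapHom]
  by_cases hr : r ≤ 2 * g + 1
  · rw [if_pos (Nat.mul_le_mul_left _ hr), ← hlead r hr, ← Nat.mul_sub]
  · push Not at hr
    rw [coeff_eq_zero_of_natDegree_lt (p := φ) (by omega),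
      coeff_eq_zero_of_natDegree_lt (p := f) (by rw [hd]; exact hr), coeff_zero]
    split_ifs <;> rfl

theorem swap_natDegree_le (hd : f.natDegree = 2 * g + 1)
    (hdegc : ∀ j ≤ 2 * g + 1, (f.coeff j).natDegree ≤ 2 * m * (2 * g + 1 - j)) :
    (swapHom k m f).natDegree ≤ 2 * m * (2 * g + 1) := by
  rw [natDegree_le_iff_coeff_eq_zero]
  intro N hN
  ext r
  rw [coeff_swapHom, coeff_zero]
  split_ifs with h1
  · by_cases hr : r ≤ 2 * g + 1
    · refine coeff_eq_zero_of_natDegree_lt ((hdegc r hr).trans_lt ?_)
      have h3 : 2 * m * r ≤ 2 * m * (2 * g + 1) := Nat.mul_le_mul_left _ hr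
      rw [Nat.mul_sub]
      omega
    · push Not at hr
      rw [coeff_eq_zero_of_natDegree_lt (p := f) (by rw [hd]; exact hr), coeff_zero]
  · rfl

/-- a polynomial with irreducible leading form is irreducible over `k[t]` -/
theorem irreducible_of_lead (hφ : φ.natDegree ≤ 2 * g + 1) (hirr : Irreducible φ)
    (hm : f.Monic) (hd : f.natDegree = 2 * g + 1)
    (hdegc : ∀ j ≤ 2 * g + 1, (f.coeff j).natDegree ≤ 2 * m * (2 * g + 1 - j))
    (hlead : ∀ j ≤ 2 * g + 1, (f.coeff j).coeff (2 * m * (2 * g + 1 - j)) = φ.coeff j) :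
    Irreducible f := by
  have hcoef := swap_coeff (m := m) hφ hd hlead
  have hdeg : (swapHom k m f).natDegree = 2 * m * (2 * g + 1) := by
    refine le_antisymm (swap_natDegree_le hd hdegc) ?_
    refine le_natDegree_of_ne_zero ?_
    rw [hcoef]
    exact hirr.ne_zero
  have hle0 : (swapHom k m f).leadingCoeff = φ := by
    rw [leadingCoeff, hdeg, hcoef]
  have key : ∀ a b : k[X][X], f = a * b → IsUnit (swapHom k m a).leadingCoeff → IsUnit a := by
    intro a b hab hu
    have hl : a.leadingCoeff * b.leadingCoeff = 1 := by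
      rw [← leadingCoeff_mul, ← hab]
      exact hm
    have hda : IsUnit a.leadingCoeff := IsUnit.of_mul_eq_one _ hl
    have hdb : IsUnit b.leadingCoeff := IsUnit.of_mul_eq_one _ ((mul_comm _ _).trans hl)
    have hval : ∀ c : k[X][X], IsUnit c.leadingCoeff →
        ((swapHom k m c).coeff (2 * m * c.natDegree)).coeff c.natDegree ≠ 0 := by
      intro c hc
      rw [coeff_swapHom, if_pos le_rfl, Nat.sub_self]
      rw [Polynomial.isUnit_iff] at hc
      obtain ⟨u, hu, hcu⟩ := hc
      change (c.leadingCoeff).coeff 0 ≠ 0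
      rw [← hcu, coeff_C_zero]
      exact hu.ne_zero
    have hle : ∀ c : k[X][X], IsUnit c.leadingCoeff →
        2 * m * c.natDegree ≤ (swapHom k m c).natDegree := by
      intro c hc
      refine le_natDegree_of_ne_zero fun h0 => hval c hc ?_
      rw [h0, coeff_zero]
    have ha0 : a ≠ 0 := by
      rintro rfl
      simp at hl
    have hb0 : b ≠ 0 := by
      rintro rfl
      simp at hl
    have hmul : swapHom k m f = swapHom k m a * swapHom k m b := by rw [hab, map_mul]
    have hf0 : swapHom k m f ≠ 0 := by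
      intro h0
      rw [h0, leadingCoeff_zero] at hle0
      exact hirr.ne_zero hle0.symm
    have hsa0 : swapHom k m a ≠ 0 := by
      intro h0
      rw [h0, zero_mul] at hmul
      exact hf0 hmul
    have hsb0 : swapHom k m b ≠ 0 := by
      intro h0
      rw [h0, mul_zero] at hmul
      exact hf0 hmul
    have hsum : (swapHom k m a).natDegree + (swapHom k m b).natDegree =
        2 * m * (a.natDegree + b.natDegree) := by
      rw [← natDegree_mul hsa0 hsb0, ← hmul, hdeg, ← natDegree_mul ha0 hb0, ← hab, hd]
    have h1 := hle a hda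
    have h2 := hle b hdb
    have h3 : (swapHom k m a).natDegree = 2 * m * a.natDegree := by
      rw [mul_add] at hsum
      omega
    have h4 := hval a hda
    rw [← h3] at h4
    change ((swapHom k m a).leadingCoeff).coeff a.natDegree ≠ 0 at h4
    rw [Polynomial.isUnit_iff] at hu
    obtain ⟨u, hu, hau⟩ := hu
    rw [← hau] at h4
    have h5 : a.natDegree = 0 := by
      by_contra hne
      exact h4 (coeff_C_of_ne_zero hne)
    rw [eq_C_of_natDegree_eq_zero h5]
    refine isUnit_C.2 ?_
    have h6 : a.leadingCoeff = a.coeff 0 := by rw [leadingCoeff, h5]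
    rwa [← h6]
  constructor
  · intro hu
    have h1 := natDegree_eq_zero_of_isUnit hu
    rw [hd] at h1
    omega
  · intro a b hab
    have h1 : φ = (swapHom k m a).leadingCoeff * (swapHom k m b).leadingCoeff := by
      rw [← leadingCoeff_mul, ← map_mul, ← hab, hle0]
    rcases hirr.isUnit_or_isUnit h1 with hu | hu
    · exact Or.inl (key a b hab hu)
    · exact Or.inr (key b a (hab.trans (mul_comm _ _)) hu)

end

namespace Fam

variable {g : ℕ} {φ : k[X]} {m : ℕ} {f : k[X][X]}

/-- a member of the family is irreducible over `k[t]` -/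
theorem irreducible (hφ : LeadForm g φ) (h : Fam g m φ f) : Irreducible f :=
  irreducible_of_lead hφ.deg.le hφ.irr h.monic h.deg h.degc h.lead

/-- a member of the family is irreducible over `k(t)` -/
theorem irreducible_map (hφ : LeadForm g φ) (h : Fam g m φ f) : Irreducible (fK f) :=
  (h.monic.irreducible_iff_irreducible_map_fraction_map (K := RatFunc k)).1 (h.irreducible hφ)

theorem monic_map (h : Fam g m φ f) : (fK f).Monic := h.monic.map _

theorem natDegree_map (h : Fam g m φ f) : (fK f).natDegree = 2 * g + 1 := by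
  rw [fK, h.monic.natDegree_map, h.deg]

end Fam

/-- a nonzero natural number of `k` is nonzero in `k(t)` -/
theorem natCast_ratFunc_ne_zero {n : ℕ} (hn : (n : k) ≠ 0) : (n : RatFunc k) ≠ 0 := by
  rw [← map_natCast (algebraMap k (RatFunc k))]
  exact (_root_.map_ne_zero (algebraMap k (RatFunc k))).2 hn

theorem natDegree_derivative_eq {K : Type} [Field K] {p : K[X]} {n : ℕ}
    (hd : p.natDegree = n + 1) (hn : ((n + 1 : ℕ) : K) ≠ 0) : p.derivative.natDegree = n := by
  refine le_antisymm ((natDegree_derivative_le p).trans (by omega)) ?_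
  refine le_natDegree_of_ne_zero ?_
  rw [coeff_derivative]
  have h1 : p.coeff (n + 1) ≠ 0 := by
    rw [← hd]
    have : p ≠ 0 := by
      rintro rfl
      simp at hd
    exact leadingCoeff_ne_zero.2 this
  have h2 : ((n : K) + 1) ≠ 0 := by exact_mod_cast hn
  exact mul_ne_zero h1 h2

/-- separable polynomials stay separable under scaling of the roots -/
theorem separable_scaleRoots {K : Type} [Field K] {p : K[X]} {n : ℕ} (hd : p.natDegree = n + 1)
    (hn : ((n + 1 : ℕ) : K) ≠ 0) (hp : p.Separable) {s : K} (hs : s ≠ 0) :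
    (p.scaleRoots s).Separable := by
  have h1 : derivative (p.scaleRoots s) = (derivative p).scaleRoots s := by
    ext j
    rw [coeff_derivative, coeff_scaleRoots, coeff_scaleRoots, coeff_derivative, hd,
      natDegree_derivative_eq hd hn, show n + 1 - (j + 1) = n - j by omega]
    ring
  unfold Polynomial.Separable
  rw [h1]
  exact isCoprime_scaleRoots _ _ _ hs.isUnit hp

theorem Fam.separable {g : ℕ} {φ : k[X]} {m : ℕ} {f : k[X][X]} (hφ : LeadForm g φ)
    (hn : ((2 * g + 1 : ℕ) : k) ≠ 0) (h : Fam g m φ f) : (fK f).Separable := by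
  rw [separable_iff_derivative_ne_zero (h.irreducible_map hφ)]
  intro h0
  have h1 := coeff_derivative (fK f) (2 * g)
  rw [h0, coeff_zero] at h1
  have h2 : (fK f).coeff (2 * g + 1) = 1 := by
    rw [← h.natDegree_map]
    exact h.monic_map
  rw [h2, one_mul] at h1
  apply natCast_ratFunc_ne_zero hn
  rw [Nat.cast_succ]
  exact h1.symm

end Pool.Agent.HYP
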