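import Pool.Agent.Lib.HYP.C.Count
import Pool.Agent.Lib.HYP.G.Twist
import Pool.Agent.Lib.HYP.H.Phi
import Pool.Agent.Lib.HYP.H.Height

/-!
Module H.Main: a positive proportion of all odd hyperelliptic curves of genus `g ≥ 2` over `k(t)`,
ordered by height, `k` fixed, has trivial `2`-Selmer group.
-/

set_option autoImplicit false

open Polynomial

namespace Pool.Agent.HYP

open Pool.Agent.BSDP

/-- the polynomials of the family all of whose nontrivial classes are detected, against the minimal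
models with the property `P` -/
theorem card_good_le {k : Type} [Field k] [Finite k] {g m : ℕ} (hg : 1 ≤ g) {φ : k[X]}
    (hφ : LeadForm g φ) (hn : ((2 * g + 1 : ℕ) : k) ≠ 0) (V : Finset k[X])
    (hV : ∀ π ∈ V, π.Monic ∧ Irreducible π) (P : k[X][X] → Prop)
    (hT : ∀ f : k[X][X], Fam g m φ f → AllDet g V f →
      ∃ W ⊆ V, P (f.scaleRoots (∏ π ∈ W, π))) :
    Nat.card {f : k[X][X] // Fam g m φ f ∧ AllDet g V f} ≤
      Nat.card {f : k[X][X] // InH g (m + (∏ π ∈ V, π).natDegree) f ∧ P f} := by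
  have : Finite {f : k[X][X] // InH g (m + (∏ π ∈ V, π).natDegree) f ∧ P f} := by
    refine Finite.of_injective
      (fun f : {f : k[X][X] // InH g (m + (∏ π ∈ V, π).natDegree) f ∧ P f} =>
        (⟨f.1, f.2.1⟩ : {f : k[X][X] // InH g (m + (∏ π ∈ V, π).natDegree) f})) ?_
    rintro ⟨a, ha⟩ ⟨b, hb⟩ h
    rw [Subtype.mk.injEq] at h ⊢
    exact h
  choose! W hWV hW using hT
  let F : {f : k[X][X] // Fam g m φ f ∧ AllDet g V f} →
      {f : k[X][X] // InH g (m + (∏ π ∈ V, π).natDegree) f ∧ P f} := fun f =>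
    ⟨f.1.scaleRoots (∏ π ∈ W f.1, π), by
      refine ⟨inH_twist hg hφ hn f.2.1 (squarefree_prod hV (hWV _ f.2.1 f.2.2)) ?_,
        hW _ f.2.1 f.2.2⟩
      have := natDegree_prod_le hV (hWV _ f.2.1 f.2.2)
      omega⟩
  refine Nat.card_le_card_of_injective F ?_
  rintro ⟨f, hf⟩ ⟨f', hf'⟩ heq
  simp only [F, Subtype.mk.injEq] at heq
  have := HYP.twist_inj hg hV (hWV _ hf.1 hf.2) (hWV _ hf'.1 hf'.2) hf.1 hf'.1 heq
  rw [Subtype.mk.injEq]
  exact this

/-- the density theorem for a general property `P` -/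
theorem density_of {k : Type} [Field k] [Finite k] {g : ℕ} (hg : 1 ≤ g) {φ : k[X]}
    (hφ : LeadForm g φ) (hn : ((2 * g + 1 : ℕ) : k) ≠ 0) (P : k[X][X] → Prop)
    (hC : ∃ V : Finset k[X], (∀ π ∈ V, π.Monic ∧ Irreducible π) ∧
      ∃ m₀ : ℕ, ∀ m ≥ m₀, Nat.card k ^ (m * ((2 * g + 1) ^ 2 + (2 * g + 1) - 2)) ≤
        4 * Nat.card {f : k[X][X] // Fam g m φ f ∧ AllDet g V f})
    (hT : ∀ (V : Finset k[X]), (∀ π ∈ V, π.Monic ∧ Irreducible π) → ∀ (m : ℕ) (f : k[X][X]),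
      Fam g m φ f → AllDet g V f → ∃ W ⊆ V, P (f.scaleRoots (∏ π ∈ W, π))) :
    ∃ c : ℝ, 0 < c ∧ ∃ M₀ : ℕ, ∀ M ≥ M₀,
      c * Nat.card {f : k[X][X] // InH g M f} ≤ Nat.card {f : k[X][X] // InH g M f ∧ P f} := by
  obtain ⟨V, hV, m₀, hm₀⟩ := hC
  set E : ℕ := (2 * g + 1) ^ 2 + (2 * g + 1) - 2 with hE
  set s : ℕ := (∏ π ∈ V, π).natDegree with hs
  set q : ℝ := (Nat.card k : ℝ) with hq
  have hq0 : (0 : ℝ) < q := by
    have : 0 < Nat.card k := Nat.card_pos
    rw [hq]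
    exact_mod_cast this
  refine ⟨1 / (4 * q ^ (s * E + 2 * g)), by positivity, m₀ + s, ?_⟩
  intro M hM
  obtain ⟨m, rfl⟩ : ∃ m, M = m + s := ⟨M - s, by omega⟩
  have h1 := hm₀ m (by omega)
  have h2 := card_good_le (m := m) hg hφ hn V hV P (fun f => hT V hV m f)
  rw [← hs] at h2
  have h3 : q ^ (m * E) ≤ 4 * (Nat.card {f : k[X][X] // InH g (m + s) f ∧ P f} : ℝ) := by
    have := h1.trans (Nat.mul_le_mul_left 4 h2)
    rw [hq]
    exact_mod_cast this
  have h4 : (Nat.card {f : k[X][X] // InH g (m + s) f} : ℝ) ≤ q ^ ((m + s) * E + 2 * g) := by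
    have := card_inH_le (k := k) g (m + s)
    rw [hq]
    exact_mod_cast this
  have h5 : 1 / (4 * q ^ (s * E + 2 * g)) *
      (Nat.card {f : k[X][X] // InH g (m + s) f} : ℝ) ≤ q ^ (m * E) / 4 := by
    refine (mul_le_mul_of_nonneg_left h4 (by positivity)).trans (le_of_eq ?_)
    have h6 : q ^ ((m + s) * E + 2 * g) = q ^ (m * E) * q ^ (s * E + 2 * g) := by
      rw [← pow_add]; congr 1; ring
    rw [h6]
    field_simp
  linarith

theorem natCast_ne_zero_of_lt_ringChar {k : Type} [Field k] {n : ℕ} (hn : n ≠ 0)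
    (h : n < ringChar k) : (n : k) ≠ 0 := by
  intro h0
  have h1 := (ringChar.spec k n).1 h0
  exact absurd (Nat.le_of_dvd (Nat.pos_of_ne_zero hn) h1) (by omega)

theorem positive_proportion (g : ℕ) (hg : 2 ≤ g) (k : Type) [Field k] [Finite k]
    (hp : 2 * g + 1 < ringChar k) : ∃ c : ℝ, 0 < c ∧ ∃ M₀ : ℕ, ∀ M ≥ M₀,
      c * Nat.card {f : k[X][X] // InH g M f} ≤
        Nat.card {f : k[X][X] // InH g M f ∧ SelTriv g f} := by
  have hn : ((2 * g + 1 : ℕ) : k) ≠ 0 := natCast_ne_zero_of_lt_ringChar (by omega) hp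
  obtain ⟨φ, hφ⟩ := exists_leadForm (k := k) g hn
  refine density_of (by omega) hφ hn (SelTriv g) (count g hg hp φ hφ) ?_
  intro V hV m f hf hdet
  exact twist g hg hp hφ hf hV hdet

end Pool.Agent.HYP
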